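import Pool.Agent.Helper51.SDL.Goals

/-!
# Packet SDL-LAT1: the group `1 + p^N A`
-/

set_option autoImplicit false

namespace Pool.Agent.Helper73.SDL.LAT1

open Pool.Agent.Helper51.SDL

variable {F L : Type} [Field F] [Field L] [Algebra F L] {p : ℕ} {R : Subring F} {n : ℕ}
  {σ : L ≃ₐ[F] L} {a : L}

theorem smul_eq (r : R) (x : L) : r • x = algebraMap F L (r : F) * x := by
  rw [Subring.smul_def, Algebra.smul_def]

/-- the lattice as a submodule -/
def latS (R : Subring F) (n : ℕ) (σ : L ≃ₐ[F] L) (a : L) : Submodule R L where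
  carrier := Lat R n σ a
  add_mem' := by
    rintro x y ⟨c, hc, hx⟩ ⟨d, hd, hy⟩
    refine ⟨fun i => c i + d i, fun i => add_mem (hc i) (hd i), ?_⟩
    rw [hx, hy, ← Finset.sum_add_distrib]
    exact Finset.sum_congr rfl fun i _ => by rw [map_add, add_mul]
  zero_mem' := ⟨fun _ => 0, fun _ => zero_mem _, by simp⟩
  smul_mem' := by
    rintro r x ⟨c, hc, hx⟩
    refine ⟨fun i => (r : F) * c i, fun i => mul_mem r.2 (hc i), ?_⟩
    rw [smul_eq, hx, Finset.mul_sum]
    exact Finset.sum_congr rfl fun i _ => by rw [map_mul, mul_assoc]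

theorem mem_latS (x : L) : x ∈ latS R n σ a ↔ x ∈ Lat R n σ a := Iff.rfl

theorem conj_mem (i : ℕ) (hi : i < n) : (σ ^ i) a ∈ latS R n σ a := by
  refine ⟨fun j => if j = i then 1 else 0, fun j => ?_, ?_⟩
  · show (if j = i then (1 : F) else 0) ∈ R
    split_ifs
    · exact one_mem _
    · exact zero_mem _
  · rw [Finset.sum_eq_single i]
    · simp
    · intro j _ hj
      simp [hj]
    · intro h
      exact absurd (Finset.mem_range.2 hi) h

theorem mul_mem_lat {c : F} (hc : c ∈ R) {x : L} (hx : x ∈ latS R n σ a) :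
    algebraMap F L c * x ∈ latS R n σ a := by
  have h := (latS R n σ a).smul_mem (⟨c, hc⟩ : R) hx
  rwa [smul_eq] at h

theorem pow_mem_lat (k : ℕ) {x : L} (hx : x ∈ latS R n σ a) :
    (p : L) ^ k * x ∈ latS R n σ a := by
  have h := mul_mem_lat (pow_mem (natCast_mem R p) k) hx
  rwa [map_pow, map_natCast] at h

theorem latS_fg : (latS R n σ a).FG := by
  classical
  refine ⟨(Finset.range n).image fun i => (σ ^ i) a, le_antisymm ?_ ?_⟩
  · rw [Submodule.span_le]
    intro x hx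
    rw [Finset.coe_image] at hx
    obtain ⟨i, hi, rfl⟩ := hx
    exact conj_mem i (by simpa using hi)
  · rintro x ⟨c, hc, hx⟩
    rw [hx]
    refine Submodule.sum_mem _ fun i hi => ?_
    have h := Submodule.smul_mem (Submodule.span R
      (((Finset.range n).image fun i => (σ ^ i) a : Finset L) : Set L)) (⟨c i, hc i⟩ : R)
      (Submodule.subset_span (Finset.mem_coe.2 (Finset.mem_image_of_mem (fun i => (σ ^ i) a) hi)))
    rwa [smul_eq] at h

theorem sig_mem (h : LatH p R n σ a) {x : L} (hx : x ∈ latS R n σ a) : σ x ∈ latS R n σ a := by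
  obtain ⟨c, hc, hx⟩ := hx
  rw [hx, map_sum]
  refine Submodule.sum_mem _ fun i hi => ?_
  rw [map_mul, AlgEquiv.commutes]
  refine mul_mem_lat (hc i) ?_
  have h1 : σ ((σ ^ i) a) = (σ ^ (i + 1)) a := by rw [pow_succ']; rfl
  rw [h1]
  rcases Nat.lt_or_ge (i + 1) n with h2 | h2
  · exact conj_mem _ h2
  · have h3 : i + 1 = n := le_antisymm (Finset.mem_range.1 hi) h2
    rw [h3, h.pow]
    exact conj_mem 0 h.pos

theorem sig_pow_mem (h : LatH p R n σ a) {x : L} (hx : x ∈ latS R n σ a) (k : ℕ) :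
    (σ ^ k) x ∈ latS R n σ a := by
  induction k with
  | zero => exact hx
  | succ k ih =>
    have h1 : (σ ^ (k + 1)) x = σ ((σ ^ k) x) := by rw [pow_succ']; rfl
    rw [h1]
    exact sig_mem h ih

theorem symm_mem (h : LatH p R n σ a) {x : L} (hx : x ∈ latS R n σ a) :
    σ.symm x ∈ latS R n σ a := by
  have h1 : σ.symm x = (σ ^ (n - 1)) x := by
    rw [AlgEquiv.symm_apply_eq]
    have h2 : σ ((σ ^ (n - 1)) x) = (σ ^ (n - 1 + 1)) x := by rw [pow_succ']; rfl
    rw [h2, Nat.sub_add_cancel h.pos, h.pow]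
    rfl
  rw [h1]
  exact sig_pow_mem h hx _

theorem exists_pow_mem (h : LatH p R n σ a) (x : L) : ∃ m : ℕ, (p : L) ^ m * x ∈ latS R n σ a := by
  obtain ⟨c, hc⟩ := h.bas x
  choose m hm using fun i => h.frac (c i)
  refine ⟨∑ i ∈ Finset.range n, m i, ?_⟩
  rw [hc, Finset.mul_sum]
  refine Submodule.sum_mem _ fun i hi => ?_
  rw [← mul_assoc, ← map_natCast (algebraMap F L), ← map_pow, ← map_mul]
  refine mul_mem_lat ?_ (conj_mem i (Finset.mem_range.1 hi))
  obtain ⟨k, hk⟩ := Nat.exists_eq_add_of_le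
    (Finset.single_le_sum (f := m) (fun _ _ => Nat.zero_le _) hi)
  rw [hk, add_comm, pow_add, mul_assoc]
  exact mul_mem (pow_mem (natCast_mem R p) k) (hm i)

theorem exists_N1 (h : LatH p R n σ a) : ∃ N₁ : ℕ, ∀ x ∈ latS R n σ a, ∀ y ∈ latS R n σ a,
    (p : L) ^ N₁ * (x * y) ∈ latS R n σ a := by
  choose m hm using fun ij : ℕ × ℕ => exists_pow_mem h ((σ ^ ij.1) a * (σ ^ ij.2) a)
  refine ⟨∑ ij ∈ Finset.range n ×ˢ Finset.range n, m ij, ?_⟩
  rintro x ⟨c, hc, hx⟩ y ⟨d, hd, hy⟩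
  rw [hx, hy, Finset.sum_mul_sum, Finset.mul_sum]
  refine Submodule.sum_mem _ fun i hi => ?_
  rw [Finset.mul_sum]
  refine Submodule.sum_mem _ fun j hj => ?_
  obtain ⟨k, hk⟩ := Nat.exists_eq_add_of_le
    (Finset.single_le_sum (f := m) (fun _ _ => Nat.zero_le _)
      (Finset.mem_product.2 ⟨hi, hj⟩ : (i, j) ∈ Finset.range n ×ˢ Finset.range n))
  have e : (p : L) ^ (∑ ij ∈ Finset.range n ×ˢ Finset.range n, m ij) *
      (algebraMap F L (c i) * (σ ^ i) a * (algebraMap F L (d j) * (σ ^ j) a)) =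
      algebraMap F L (c i * d j) * ((p : L) ^ k *
        ((p : L) ^ m (i, j) * ((σ ^ i) a * (σ ^ j) a))) := by
    rw [hk, pow_add, map_mul]
    ring
  rw [e]
  exact mul_mem_lat (mul_mem (hc i) (hd j)) (pow_mem_lat k (hm (i, j)))

theorem jac (h : LatH p R n σ a) : Ideal.span {((p : ℕ) : R)} ≤ Ideal.jacobson ⊥ := by
  rw [Ideal.span_singleton_le_iff_mem, Ideal.mem_jacobson_bot]
  intro y
  obtain ⟨t, ht, h1⟩ := h.rad y y.2
  refine IsUnit.of_mul_eq_one (⟨t, ht⟩ : R) ?_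
  apply Subtype.ext
  push_cast
  rw [add_comm]
  exact h1

/-- the equation `z + p^N x z = - x` has a solution -/
theorem solve (h : LatH p R n σ a) {N₁ N : ℕ} (hN₁ : ∀ x ∈ latS R n σ a, ∀ y ∈ latS R n σ a,
    (p : L) ^ N₁ * (x * y) ∈ latS R n σ a) (hN : N₁ + 1 ≤ N) {x : L} (hx : x ∈ latS R n σ a) :
    ∃ z ∈ latS R n σ a, z + (p : L) ^ N * (x * z) = -x := by
  obtain ⟨k, rfl⟩ := Nat.exists_eq_add_of_le hN
  let μ : L →ₗ[R] L :=
    { toFun := fun z => z + (p : L) ^ (N₁ + 1 + k) * (x * z)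
      map_add' := fun y z => by ring
      map_smul' := fun r z => by
        rw [smul_eq, smul_eq, RingHom.id_apply]
        ring }
  have hle : latS R n σ a ≤ (latS R n σ a).map μ := by
    refine Submodule.le_of_le_smul_of_le_jacobson_bot latS_fg (jac h) ?_
    intro z hz
    have e : z = μ z - ((p : ℕ) : R) • ((p : L) ^ k * ((p : L) ^ N₁ * (x * z))) := by
      rw [smul_eq]
      show z = z + (p : L) ^ (N₁ + 1 + k) * (x * z) - _
      push_cast
      ring
    rw [e]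
    refine sub_mem (Submodule.mem_sup_left (Submodule.mem_map_of_mem hz))
      (Submodule.mem_sup_right ?_)
    exact Submodule.smul_mem_smul (Ideal.mem_span_singleton_self _)
      (pow_mem_lat k (hN₁ x hx z hz))
  obtain ⟨z, hz, hz2⟩ := hle (neg_mem hx)
  exact ⟨z, hz, hz2⟩

theorem t : Pool.Agent.Helper51.SDL.S_LAT1 := by
  intro F L _ _ _ p R n σ a h
  obtain ⟨N₁, hN₁⟩ := exists_N1 h
  refine ⟨N₁ + 1, fun N hN => ?_⟩
  have hprod : ∀ x ∈ latS R n σ a, ∀ y ∈ latS R n σ a, (p : L) ^ N * (x * y) ∈ latS R n σ a := by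
    intro x hx y hy
    obtain ⟨k, rfl⟩ := Nat.exists_eq_add_of_le hN
    have e : (p : L) ^ (N₁ + 1 + k) * (x * y) =
        (p : L) ^ (1 + k) * ((p : L) ^ N₁ * (x * y)) := by ring
    rw [e]
    exact pow_mem_lat _ (hN₁ x hx y hy)
  refine ⟨hprod, ?_⟩
  let V : Subgroup Lˣ :=
    { carrier := {v | ∃ x ∈ Lat R n σ a, (v : L) = 1 + (p : L) ^ N * x}
      one_mem' := ⟨0, (latS R n σ a).zero_mem, by simp⟩
      mul_mem' := by
        rintro v w ⟨x, hx, hv⟩ ⟨y, hy, hw⟩
        refine ⟨x + y + (p : L) ^ N * (x * y),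
          add_mem (add_mem (show x ∈ latS R n σ a from hx) hy) (hprod x hx y hy), ?_⟩
        rw [Units.val_mul, hv, hw]
        ring
      inv_mem' := by
        rintro v ⟨x, hx, hv⟩
        obtain ⟨z, hz, hz2⟩ := solve h hN₁ hN hx
        refine ⟨z, hz, ?_⟩
        rw [Units.val_inv_eq_inv_val]
        refine inv_eq_of_mul_eq_one_left ?_
        rw [hv]
        have e : (1 + (p : L) ^ N * z) * (1 + (p : L) ^ N * x) =
            1 + (p : L) ^ N * (x + (z + (p : L) ^ N * (x * z))) := by ring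
        rw [e, hz2, add_neg_cancel, mul_zero, add_zero] }
  have hV : ∀ v : Lˣ, v ∈ V ↔ ∃ x ∈ Lat R n σ a, (v : L) = 1 + (p : L) ^ N * x :=
    fun v => Iff.rfl
  have h1 : ∀ v ∈ V, Units.map (σ : L →* L) v ∈ V := by
    rintro v ⟨x, hx, hv⟩
    refine ⟨σ x, sig_mem h hx, ?_⟩
    show σ (v : L) = _
    rw [hv, map_add, map_one, map_mul, map_pow, map_natCast]
  have h2 : ∀ v ∈ V, Units.map (σ.symm : L →* L) v ∈ V := by
    rintro v ⟨x, hx, hv⟩
    refine ⟨σ.symm x, symm_mem h hx, ?_⟩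
    show σ.symm (v : L) = _
    rw [hv, map_add, map_one, map_mul, map_pow, map_natCast]
  let s : V ≃* V :=
    { toFun := fun v => ⟨Units.map (σ : L →* L) v, h1 v v.2⟩
      invFun := fun v => ⟨Units.map (σ.symm : L →* L) v, h2 v v.2⟩
      left_inv := fun v => Subtype.ext (Units.ext (σ.symm_apply_apply _))
      right_inv := fun v => Subtype.ext (Units.ext (σ.apply_symm_apply _))
      map_mul' := fun v w => Subtype.ext (map_mul _ _ _) }
  exact ⟨V, s, hV, fun v => rfl⟩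

end Pool.Agent.Helper73.SDL.LAT1
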